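import Mathlib
import Pool.Agent.N788.Star.Defs
import Pool.Agent.N788.Star.Main

namespace Pool.Agent.Results.MP_ad2f8c_co.HellyNumberForLNC

open Pool.Agent.N788.Star

/-- In every dimension `d`, a compact connected set `E ⊆ ℝ^d` with property `C_{d+1}` (any
`d + 1` locally non-convex points of `E` are clearly visible from a single point of `E`) is
starshaped. -/
theorem result : ∀ (d : ℕ) (E : Set (EuclideanSpace ℝ (Fin d))),
    IsCompact E → IsConnected E → PropertyC (d + 1) E → Starshaped E :=
  fun _ _ hE hconn hC => main hE hconn hC

end Pool.Agent.Results.MP_ad2f8c_co.HellyNumberForLNC
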